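import Mathlib

/-!
# A minimally 8-connected digraph on 49 vertices with exactly one vertex of in- and outdegree 8

Data and certificates (vertex-disjoint path systems) for the counterexample to Mader's conjecture.

Vertices: hub `0..7`, leaves `8..15`, `16..23` (complete digraphs); the vertex `24`;
hub `25..32`, leaves `33..40`, `41..48` (complete digraphs).
-/

set_option autoImplicit false

namespace Pool.Agent.Mader49

/-- `outs[a]` is the bit mask of the out-neighbourhood of `a`. -/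
def outs : List ℕ :=
  [8796109938930,
   34380710392,
   8608811250,
   281474993586417,
   71468272861412,
   2216220951768,
   35459267301553,
   4466791154292,
   65027,
   2147548417,
   536935170,
   33617666,
   134278914,
   4295024385,
   48899,
   1073774337,
   16646156,
   2164064264,
   83558404,
   553058312,
   1089404932,
   283049992,
   4307484676,
   8323084,
   8556380160,
   2083596009473,
   801145618434,
   204509498310660,
   514572549095432,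
   8019509264,
   7482638368,
   6408896576,
   4261412992,
   2182111821824,
   2173387669504,
   2156610453504,
   2123861327872,
   2057289334784,
   1915622522880,
   1641751248896,
   1090955247616,
   558552041127936,
   556353957396480,
   551955374014464,
   543159012556800,
   525566625185792,
   490386480955392,
   420015589294080,
   279275987009536]

/-- `ins[a]` is the bit mask of the in-neighbourhood of `a`. -/
def ins : List ℕ :=
  [33612616,
   67132677,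
   148177040,
   279642146,
   536871151,
   1073742047,
   2147483839,
   4294967423,
   65026,
   64896,
   64288,
   63236,
   61248,
   57089,
   48912,
   32520,
   16646152,
   16580609,
   16449552,
   16187456,
   15663136,
   14614532,
   12517378,
   8323200,
   255,
   282582826616832,
   35467454316544,
   2224340078592,
   17608982134784,
   8838019810304,
   4955067940864,
   140812197429760,
   70509995761664,
   2181910495236,
   2173287006240,
   2156140691458,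
   2121780953216,
   2053095030784,
   1915588968512,
   1640778170368,
   1090955247632,
   558552041127968,
   556353152090240,
   551954971361281,
   543159146774528,
   525566692294720,
   490382454423568,
   420013844463616,
   279276221890568]

/-- Entry `v - 8`: eight paths from `v` to the hub `0..7`, disjoint apart from `v`. -/
def fanOut : List (List (List ℕ)) :=
  [[[0], [1], [9, 31, 6], [10, 29, 4], [11, 25, 34, 33, 28, 3], [12, 27, 2], [13, 32, 7], [15, 30, 5]],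
   [[0], [8, 1], [10, 29, 4], [11, 25, 34, 33, 28, 3], [12, 27, 2], [13, 32, 7], [15, 30, 5], [31, 6]],
   [[1], [8, 0], [9, 31, 6], [11, 25, 34, 33, 28, 3], [12, 27, 2], [13, 32, 7], [15, 30, 5], [29, 4]],
   [[1], [8, 0], [9, 31, 6], [10, 29, 4], [12, 27, 2], [13, 32, 7], [15, 30, 5], [25, 34, 33, 28, 3]],
   [[1], [8, 0], [9, 31, 6], [10, 29, 4], [11, 25, 34, 33, 28, 3], [13, 32, 7], [15, 30, 5], [27, 2]],
   [[0], [8, 1], [9, 31, 6], [10, 29, 4], [11, 25, 34, 33, 28, 3], [12, 27, 2], [15, 30, 5], [32, 7]],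
   [[0], [1], [9, 31, 6], [10, 29, 4], [11, 25, 34, 33, 28, 3], [12, 27, 2], [13, 32, 7], [15, 30, 5]],
   [[0], [8, 1], [9, 31, 6], [10, 29, 4], [11, 25, 34, 33, 28, 3], [12, 27, 2], [13, 32, 7], [30, 5]],
   [[2], [3], [17, 31, 6], [18, 26, 1], [19, 29, 4], [20, 30, 5], [21, 28, 25, 0], [22, 32, 7]],
   [[3], [16, 2], [18, 26, 1], [19, 29, 4], [20, 30, 5], [21, 28, 25, 0], [22, 32, 7], [31, 6]],
   [[2], [16, 3], [17, 31, 6], [19, 29, 4], [20, 30, 5], [21, 28, 25, 0], [22, 32, 7], [26, 1]],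
   [[3], [16, 2], [17, 31, 6], [18, 26, 1], [20, 30, 5], [21, 28, 25, 0], [22, 32, 7], [29, 4]],
   [[2], [16, 3], [17, 31, 6], [18, 26, 1], [19, 29, 4], [21, 28, 25, 0], [22, 32, 7], [30, 5]],
   [[3], [16, 2], [17, 31, 6], [18, 26, 1], [19, 29, 4], [20, 30, 5], [22, 32, 7], [28, 25, 0]],
   [[2], [16, 3], [17, 31, 6], [18, 26, 1], [19, 29, 4], [20, 30, 5], [21, 28, 25, 0], [32, 7]],
   [[2], [3], [17, 31, 6], [18, 26, 1], [19, 29, 4], [20, 30, 5], [21, 28, 25, 0], [22, 32, 7]],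
   [[25, 0], [26, 1], [27, 2], [28, 3], [29, 4], [30, 5], [31, 6], [32, 7]],
   [[0], [29, 4], [32, 7], [34, 27, 2], [37, 33, 28, 3], [38, 26, 1], [39, 30, 5], [40, 36, 31, 6]],
   [[1], [27, 2], [31, 6], [33, 28, 3], [35, 29, 4], [36, 40, 25, 0], [37, 32, 7], [39, 30, 5]],
   [[2], [26, 1], [28, 3], [41, 42, 30, 5], [43, 29, 4], [44, 46, 32, 7], [45, 48, 25, 0], [47, 31, 6]],
   [[3], [25, 0], [30, 5], [42, 41, 27, 2], [44, 43, 29, 4], [46, 32, 7], [47, 31, 6], [48, 45, 26, 1]],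
   [[4], [25, 0], [26, 1], [27, 2], [28, 3], [30, 5], [31, 6], [32, 7]],
   [[5], [25, 0], [26, 1], [27, 2], [28, 3], [29, 4], [31, 6], [32, 7]],
   [[6], [25, 0], [26, 1], [27, 2], [28, 3], [29, 4], [30, 5], [32, 7]],
   [[7], [25, 0], [26, 1], [27, 2], [28, 3], [29, 4], [30, 5], [31, 6]],
   [[28, 3], [34, 27, 2], [35, 29, 4], [36, 31, 6], [37, 32, 7], [38, 26, 1], [39, 30, 5], [40, 25, 0]],
   [[27, 2], [33, 28, 3], [35, 29, 4], [36, 31, 6], [37, 32, 7], [38, 26, 1], [39, 30, 5], [40, 25, 0]],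
   [[29, 4], [33, 28, 3], [34, 27, 2], [36, 31, 6], [37, 32, 7], [38, 26, 1], [39, 30, 5], [40, 25, 0]],
   [[31, 6], [33, 28, 3], [34, 27, 2], [35, 29, 4], [37, 32, 7], [38, 26, 1], [39, 30, 5], [40, 25, 0]],
   [[32, 7], [33, 28, 3], [34, 27, 2], [35, 29, 4], [36, 31, 6], [38, 26, 1], [39, 30, 5], [40, 25, 0]],
   [[26, 1], [33, 28, 3], [34, 27, 2], [35, 29, 4], [36, 31, 6], [37, 32, 7], [39, 30, 5], [40, 25, 0]],
   [[30, 5], [33, 28, 3], [34, 27, 2], [35, 29, 4], [36, 31, 6], [37, 32, 7], [38, 26, 1], [40, 25, 0]],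
   [[25, 0], [33, 28, 3], [34, 27, 2], [35, 29, 4], [36, 31, 6], [37, 32, 7], [38, 26, 1], [39, 30, 5]],
   [[27, 2], [42, 30, 5], [43, 29, 4], [44, 28, 3], [45, 26, 1], [46, 32, 7], [47, 31, 6], [48, 25, 0]],
   [[30, 5], [41, 27, 2], [43, 29, 4], [44, 28, 3], [45, 26, 1], [46, 32, 7], [47, 31, 6], [48, 25, 0]],
   [[29, 4], [41, 27, 2], [42, 30, 5], [44, 28, 3], [45, 26, 1], [46, 32, 7], [47, 31, 6], [48, 25, 0]],
   [[28, 3], [41, 27, 2], [42, 30, 5], [43, 29, 4], [45, 26, 1], [46, 32, 7], [47, 31, 6], [48, 25, 0]],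
   [[26, 1], [41, 27, 2], [42, 30, 5], [43, 29, 4], [44, 28, 3], [46, 32, 7], [47, 31, 6], [48, 25, 0]],
   [[32, 7], [41, 27, 2], [42, 30, 5], [43, 29, 4], [44, 28, 3], [45, 26, 1], [47, 31, 6], [48, 25, 0]],
   [[31, 6], [41, 27, 2], [42, 30, 5], [43, 29, 4], [44, 28, 3], [45, 26, 1], [46, 32, 7], [48, 25, 0]],
   [[25, 0], [41, 27, 2], [42, 30, 5], [43, 29, 4], [44, 28, 3], [45, 26, 1], [46, 32, 7], [47, 31, 6]]]

/-- Entry `v - 8`: eight paths from the hub `0..7` to `v`, disjoint apart from `v`. -/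
def fanIn : List (List (List ℕ)) :=
  [[[0, 13], [1], [2, 11], [3, 15], [4, 14], [5, 10], [6, 12], [7, 9]],
   [[0, 13], [1, 8], [2, 11], [3, 15], [4, 14], [5, 10], [6, 12], [7]],
   [[0, 13], [1, 8], [2, 11], [3, 15], [4, 14], [5], [6, 12], [7, 9]],
   [[0, 13], [1, 8], [2], [3, 15], [4, 14], [5, 10], [6, 12], [7, 9]],
   [[0, 13], [1, 8], [2, 11], [3, 15], [4, 14], [5, 10], [6], [7, 9]],
   [[0], [1, 8], [2, 11], [3, 15], [4, 14], [5, 10], [6, 12], [7, 9]],
   [[0, 13], [1, 8], [2, 11], [3, 15], [4], [5, 10], [6, 12], [7, 9]],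
   [[0, 13], [1, 8], [2, 11], [3], [4, 14], [5, 10], [6, 12], [7, 9]],
   [[0, 17], [1, 22], [2, 21], [3], [4, 18], [5, 20], [6, 19], [7, 23]],
   [[0], [1, 22], [2, 21], [3, 16], [4, 18], [5, 20], [6, 19], [7, 23]],
   [[0, 17], [1, 22], [2, 21], [3, 16], [4], [5, 20], [6, 19], [7, 23]],
   [[0, 17], [1, 22], [2, 21], [3, 16], [4, 18], [5, 20], [6], [7, 23]],
   [[0, 17], [1, 22], [2, 21], [3, 16], [4, 18], [5], [6, 19], [7, 23]],
   [[0, 17], [1, 22], [2], [3, 16], [4, 18], [5, 20], [6, 19], [7, 23]],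
   [[0, 17], [1], [2, 21], [3, 16], [4, 18], [5, 20], [6, 19], [7, 23]],
   [[0, 17], [1, 22], [2, 21], [3, 16], [4, 18], [5, 20], [6, 19], [7]],
   [[0], [1], [2], [3], [4], [5], [6], [7]],
   [[0, 24], [1, 22, 32], [2, 11], [3, 48], [4, 40], [5, 10, 29], [6, 12, 15, 30], [7, 9, 31]],
   [[0, 24], [1, 22, 32], [2, 11, 12, 27], [3, 15, 30], [4, 18], [5, 10, 29], [6, 38], [7, 9, 31]],
   [[0, 24], [1, 22, 32], [2, 11, 10, 29], [3, 15, 30], [4, 18, 26], [5, 34], [6, 12], [7, 9, 31]],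
   [[0, 24], [1, 22, 32], [2, 21], [3, 15, 30], [4, 40, 33], [5, 10, 29], [6, 12, 27], [7, 9, 31]],
   [[0, 43], [1, 35], [2, 11, 25], [3, 15, 30], [4, 24], [5, 10], [6, 19], [7, 9, 31]],
   [[0, 24], [1, 22, 32], [2, 21, 28], [3, 15], [4, 40, 39], [5, 20], [6, 19, 29], [7, 42]],
   [[0, 17], [1, 24], [2, 33, 36], [3, 15, 30], [4, 18, 26], [5, 10, 29], [6, 45, 47], [7, 9]],
   [[0, 13], [1, 22], [2, 24], [3, 15, 30], [4, 46], [5, 10, 29], [6, 38, 37], [7, 9, 31]],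
   [[0, 24, 26], [1, 35], [2], [3, 48, 25, 37], [4, 40], [5, 34], [6, 38], [7, 36]],
   [[0, 24, 25], [1, 35], [2, 33], [3, 15, 30, 26, 37], [4, 40], [5], [6, 38], [7, 36]],
   [[0, 24, 26], [1], [2, 33], [3, 48, 25, 37], [4, 40], [5, 34], [6, 38], [7, 36]],
   [[0, 24, 26], [1, 35], [2, 33], [3, 48, 25, 37], [4, 40], [5, 34], [6, 38], [7]],
   [[0, 24, 25], [1, 35], [2, 33], [3, 15, 30, 26], [4, 40], [5, 34], [6, 38], [7, 36]],
   [[0, 24, 25], [1, 35], [2, 33], [3, 15, 30, 26, 37], [4, 40], [5, 34], [6], [7, 36]],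
   [[0, 24, 25], [1, 35], [2, 33], [3, 15, 30, 26], [4, 40], [5, 34], [6, 38], [7, 36]],
   [[0, 24, 25], [1, 35], [2, 33], [3, 15, 30, 26, 37], [4], [5, 34], [6, 38], [7, 36]],
   [[0, 43], [1, 24, 27], [2, 21, 28, 44], [3, 48], [4, 46], [5], [6, 45], [7, 42]],
   [[0, 43], [1, 24, 28], [2, 11, 12, 27, 44], [3, 48], [4, 46], [5, 41], [6, 45], [7]],
   [[0], [1, 24, 27], [2, 21, 28, 44], [3, 48], [4, 46], [5, 41], [6, 45], [7, 42]],
   [[0, 43], [1, 24, 27], [2, 21, 28], [3, 48], [4, 46], [5, 41], [6, 45], [7, 42]],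
   [[0, 43], [1, 24, 27], [2, 21, 28, 44], [3, 48], [4, 46], [5, 41], [6], [7, 42]],
   [[0, 43], [1, 24, 28], [2, 11, 12, 27, 44], [3, 48], [4], [5, 41], [6, 45], [7, 42]],
   [[0, 43], [1, 24, 27], [2, 21, 28], [3, 48], [4, 46], [5, 41], [6, 45], [7, 42]],
   [[0, 43], [1, 24, 28], [2, 11, 12, 27, 44], [3], [4, 46], [5, 41], [6, 45], [7, 42]]]

/-- Entry `8 r + s`: interiors of eight internally disjoint paths from `r` to `s`. -/
def hubPaths : List (List (List ℕ)) :=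
  [[],
   [[], [4, 14], [5, 10], [6, 12], [7, 2], [13, 8], [17, 3, 15, 11], [24, 26]],
   [[1, 22], [4], [5, 20], [6, 19, 18], [7], [13, 32, 28, 3, 16], [17, 23], [24, 27]],
   [[1], [4, 18, 16], [5], [6, 19], [7, 23], [13, 12, 27, 2, 21], [17], [24, 28]],
   [[1], [], [5], [6], [7], [13, 12, 27, 2], [17, 3], [24, 29]],
   [[1], [4], [], [6], [7], [13, 12, 27, 2], [17, 3], [24, 30]],
   [[1], [4], [5], [], [7], [13, 12, 27, 2], [17, 3], [24, 31]],
   [[1], [4], [5], [6], [], [13, 32], [17, 3], [24, 27, 2]],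
   [[3], [4, 14], [5, 10, 13], [6], [7, 9], [8], [22, 2, 11, 15], [24, 25]],
   [],
   [[3, 16], [4], [5, 20], [6, 19, 18], [7], [8, 0, 17, 23], [22], [24, 27]],
   [[], [4, 2, 21], [5], [6, 19], [7, 23], [8, 0, 17], [22, 16], [24, 28]],
   [[3], [], [5], [6], [7], [8, 0], [22, 2], [24, 29]],
   [[3], [4], [], [6], [7], [8, 0], [22, 2], [24, 30]],
   [[3], [4], [5], [], [7], [8, 0], [22, 2], [24, 31]],
   [[3], [4], [5], [6], [], [8, 0], [22, 2], [24, 32]],
   [[1, 8], [4, 14], [5, 10, 13], [6], [7, 9], [11, 15], [21, 3], [24, 25]],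
   [[], [4, 14], [5, 10], [6, 12], [7, 9, 8], [11], [21, 3, 0], [24, 26]],
   [],
   [[1], [4, 18, 16], [5], [6, 19], [7, 23], [11, 8, 0, 17], [21], [24, 28]],
   [[1], [], [5], [6], [7], [11, 8, 0], [21, 3], [24, 29]],
   [[1], [4], [], [6], [7], [11, 8, 0], [21, 3], [24, 30]],
   [[1], [4], [5], [], [7], [11, 8, 0], [21, 3], [24, 31]],
   [[1], [4], [5], [6], [], [11, 8, 0], [21, 3], [24, 32]],
   [[], [4, 14], [5, 10, 8], [6], [7, 9], [15], [16, 2, 11, 13], [24, 25]],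
   [[0], [4, 14], [5, 10], [6, 12], [7, 9, 11], [15, 8], [16, 2], [24, 26]],
   [[0, 17, 23], [4], [5, 20], [6, 19, 18], [7], [15, 8, 1, 22], [16], [24, 27]],
   [],
   [[0], [], [5], [6], [7], [15, 8, 1], [16, 2], [24, 29]],
   [[0], [4], [], [6], [7], [15, 30], [16, 2], [24, 26, 1]],
   [[0], [4], [5], [], [7], [15, 8, 1], [16, 2], [24, 31]],
   [[0], [4], [5], [6], [], [15, 8, 1], [16, 2], [24, 32]],
   [[2, 11, 15], [5, 10, 13], [6], [7, 9], [14], [18, 16, 3], [24, 26, 1, 8], [40, 25]],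
   [[2], [5, 10], [6, 12], [7, 9, 8], [14], [18, 26], [24, 28, 3, 15, 11], [40, 25, 0]],
   [[], [5, 20], [6, 19, 16], [7], [14, 1, 22], [18], [24, 27], [40, 25, 0, 17, 23]],
   [[2, 21], [5], [6, 19], [7, 23], [14, 1], [18, 16], [24, 28], [40, 25, 0, 17]],
   [],
   [[2], [], [6], [7], [14, 1], [18, 16, 3], [24, 30], [40, 25, 0]],
   [[2], [5], [], [7], [14, 1], [18, 16, 3], [24, 31], [40, 25, 0]],
   [[2], [5], [6], [], [14, 1], [18, 16, 3], [24, 32], [40, 25, 0]],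
   [[3], [4, 14], [6], [7, 9], [10, 15], [20, 2, 11, 13], [24, 25], [34, 27, 26, 1, 8]],
   [[3, 15, 11], [4, 14], [6, 12], [7, 9, 8], [10], [20, 2], [24, 26], [34, 40, 25, 0]],
   [[3, 16], [4], [6, 19, 18], [7], [10, 1, 22], [20], [24, 25, 0, 17, 23], [34, 27]],
   [[], [4, 18, 17], [6, 19], [7, 23], [10, 1], [20, 16], [24, 28], [34, 27, 2, 21]],
   [[3], [], [6], [7], [10, 1], [20, 2], [24, 29], [34, 40, 25, 0]],
   [],
   [[3], [4], [], [7], [10, 1], [20, 2], [24, 31], [34, 40, 25, 0]],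
   [[3], [4], [6], [], [10, 1], [20, 2], [24, 32], [34, 40, 25, 0]],
   [[], [4, 14], [5, 10, 13], [7, 9], [12, 15], [19, 3], [24, 25], [38, 26, 1, 8]],
   [[0], [4, 14], [5, 10], [7, 9, 11], [12], [19, 3, 15, 8], [24, 27, 2], [38, 26]],
   [[0, 17, 18], [4], [5, 20], [7], [12, 27], [19, 23], [24, 28, 3, 16], [38, 26, 1, 22]],
   [[0, 17], [4, 18, 16], [5], [7, 23], [12, 1], [19], [24, 28], [38, 26, 27, 2, 21]],
   [[0], [], [5], [7], [12, 1], [19, 3], [24, 29], [38, 26, 27, 2]],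
   [[0], [4], [], [7], [12, 1], [19, 3], [24, 30], [38, 26, 27, 2]],
   [],
   [[0], [4], [5], [], [12, 1], [19, 3], [24, 32], [38, 26, 27, 2]],
   [[2, 11, 15], [4, 14], [5, 10, 13], [6], [9], [23, 3], [24, 25], [36, 31, 26, 1, 8]],
   [[2], [4, 14], [5, 10], [6, 12], [9, 8], [23, 3, 15, 11], [24, 26], [36, 31, 25, 0]],
   [[], [4], [5, 20], [6, 19, 16], [9, 0, 17, 18], [23], [24, 27], [36, 31, 26, 1, 22]],
   [[2, 21], [4, 18, 16], [5], [6, 19], [9, 0, 17], [23], [24, 28], [36, 31, 26, 1]],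
   [[2], [], [5], [6], [9, 0], [23, 3], [24, 29], [36, 31, 26, 1]],
   [[2], [4], [], [6], [9, 0], [23, 3], [24, 30], [36, 31, 26, 1]],
   [[2], [4], [5], [], [9, 0], [23, 3], [24, 26, 1], [36, 31]],
   []]

end Pool.Agent.Mader49
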