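import Pool.Agent.Mader49.Data

/-!
# Verification of the counterexample to Mader's conjecture (`n = 8`, 49 vertices)
-/

set_option autoImplicit false

namespace Pool.Agent.Mader49

open Relation

/-- Boolean adjacency on natural numbers. -/
def adjN (a b : ℕ) : Bool := (outs.getD a 0).testBit b

/-- The digraph. -/
def G : Digraph (Fin 49) := ⟨fun a b => adjN a.val b.val = true⟩

/-- `u, l₁, l₂, …` is a walk and all `lᵢ < 49`. -/
def walk : ℕ → List ℕ → Bool
  | _, [] => true
  | u, a :: l => decide (a < 49) && adjN u a && walk a l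

/-- Cast to vertices. -/
def f (a : ℕ) : Fin 49 := Fin.ofNat 49 a

lemma f_val {a : ℕ} (h : a < 49) : (f a).val = a := by
  simp [f, Fin.ofNat, Nat.mod_eq_of_lt h]

lemma f_fin (a : Fin 49) : f a.val = a := Fin.ext (f_val a.isLt)

/-- Arcs of `D - S`. -/
def Rel (S : Finset (Fin 49)) (a b : Fin 49) : Prop := a ∉ S ∧ b ∉ S ∧ G.Adj a b

lemma walk_lt : ∀ (l : List ℕ) (u : ℕ), walk u l = true → ∀ a ∈ l, a < 49
  | [], _, _ => by simp
  | b :: l, u, h => by
      simp only [walk, Bool.and_eq_true, decide_eq_true_eq] at h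
      intro a ha
      rcases List.mem_cons.1 ha with rfl | ha
      · exact h.1.1
      · exact walk_lt l b h.2 a ha

lemma walk_sound (S : Finset (Fin 49)) : ∀ (l : List ℕ) (u : Fin 49), u ∉ S →
    walk u.val l = true → (∀ a ∈ l, f a ∉ S) → ∀ t ∈ l, ReflTransGen (Rel S) u (f t)
  | [], _, _, _, _ => by simp
  | b :: l, u, hu, h, hS => by
      simp only [walk, Bool.and_eq_true, decide_eq_true_eq] at h
      obtain ⟨⟨hb, hub⟩, hl⟩ := h
      have hbS : f b ∉ S := hS b (by simp)
      have h1 : Rel S u (f b) := by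
        refine ⟨hu, hbS, ?_⟩
        show adjN u.val (f b).val = true
        rw [f_val hb]; exact hub
      have ih := walk_sound S l (f b) hbS (by rw [f_val hb]; exact hl)
        (fun a ha => hS a (by simp [ha]))
      intro t ht
      rcases List.mem_cons.1 ht with rfl | ht
      · exact ReflTransGen.single h1
      · exact (ReflTransGen.single h1).trans (ih t ht)

/-- Among at least eight pairwise disjoint lists, one avoids any set of fewer than eight elements. -/
lemma exists_avoid_aux (X : Finset ℕ) : ∀ (Ts : List (List ℕ)), Ts.flatten.Nodup →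
    (∀ T ∈ Ts, ∃ a ∈ T, a ∈ X) → Ts.length ≤ (X.filter (fun a => a ∈ Ts.flatten)).card
  | [], _, _ => by simp
  | T :: Ts, hnd, h => by
      rw [List.flatten_cons, List.nodup_append] at hnd
      obtain ⟨_, hnd2, hdis⟩ := hnd
      have ih := exists_avoid_aux X Ts hnd2 (fun T' hT' => h T' (by simp [hT']))
      obtain ⟨a, haT, haX⟩ := h T (by simp)
      have hsub : insert a (X.filter (fun b => b ∈ Ts.flatten)) ⊆
          X.filter (fun b => b ∈ (T :: Ts).flatten) := by
        intro b hb
        rcases Finset.mem_insert.1 hb with rfl | hb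
        · simp [haX, haT]
        · simp only [Finset.mem_filter] at hb ⊢
          refine ⟨hb.1, ?_⟩
          rw [List.flatten_cons]
          exact List.mem_append_right _ hb.2
      have hnot : a ∉ X.filter (fun b => b ∈ Ts.flatten) := by
        intro hb
        exact hdis a haT a (Finset.mem_filter.1 hb).2 rfl
      calc (T :: Ts).length = Ts.length + 1 := rfl
        _ ≤ (X.filter (fun b => b ∈ Ts.flatten)).card + 1 := by omega
        _ = (insert a (X.filter (fun b => b ∈ Ts.flatten))).card := by
            rw [Finset.card_insert_of_notMem hnot]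
        _ ≤ _ := Finset.card_le_card hsub

lemma exists_avoid (S : Finset (Fin 49)) (hS : S.card < 8) (Ts : List (List ℕ))
    (hlen : 8 ≤ Ts.length) (hnd : Ts.flatten.Nodup) (hlt : ∀ T ∈ Ts, ∀ a ∈ T, a < 49) :
    ∃ T ∈ Ts, ∀ a ∈ T, f a ∉ S := by
  by_contra hcon
  push Not at hcon
  have h2 : ∀ T ∈ Ts, ∃ a ∈ T, a ∈ S.image Fin.val := by
    intro T hT
    obtain ⟨a, ha, haS⟩ := hcon T hT
    refine ⟨a, ha, Finset.mem_image.2 ⟨f a, haS, f_val (hlt T hT a ha)⟩⟩
  have h3 := exists_avoid_aux (S.image Fin.val) Ts hnd h2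
  have h4 : ((S.image Fin.val).filter (fun a => a ∈ Ts.flatten)).card ≤ S.card :=
    (Finset.card_filter_le _ _).trans Finset.card_image_le
  omega

/-! ### The certificates -/

/-- Check of a fan from `v` to the hub. -/
def okOut (v : ℕ) (Ts : List (List ℕ)) : Bool :=
  decide (8 ≤ Ts.length) && decide Ts.flatten.Nodup &&
    Ts.all (fun T => walk v T && T.any (fun a => decide (a < 8)))

/-- Check of a fan from the hub to `v`. -/
def okIn (v : ℕ) (Ts : List (List ℕ)) : Bool :=
  decide (8 ≤ Ts.length) && decide Ts.flatten.Nodup &&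
    Ts.all (fun T => match T with
      | [] => false
      | r :: l => decide (r < 8) && walk r (l ++ [v]))

/-- Check of a path system from `r` to `s`. -/
def okHub (r s : ℕ) (Ts : List (List ℕ)) : Bool :=
  decide (8 ≤ Ts.length) && decide Ts.flatten.Nodup &&
    Ts.all (fun T => walk r (T ++ [s]))

set_option maxRecDepth 100000 in
lemma out_cert : ∀ v < 49, 8 ≤ v → okOut v (fanOut.getD (v - 8) []) = true := by
  decide +kernel

set_option maxRecDepth 100000 in
lemma in_cert : ∀ v < 49, 8 ≤ v → okIn v (fanIn.getD (v - 8) []) = true := by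
  decide +kernel

set_option maxRecDepth 100000 in
lemma hub_cert : ∀ r < 8, ∀ s < 8, r ≠ s → okHub r s (hubPaths.getD (8 * r + s) []) = true := by
  decide +kernel

/-! ### 8-connectivity -/

lemma not_mem_of (S : Finset (Fin 49)) {u : Fin 49} (hu : u ∉ S) : f u.val ∉ S := by
  rwa [f_fin]

/-- From every vertex outside `S` one reaches a hub vertex outside `S`. -/
lemma to_hub (S : Finset (Fin 49)) (hS : S.card < 8) (u : Fin 49) (hu : u ∉ S) :
    ∃ r : ℕ, r < 8 ∧ f r ∉ S ∧ ReflTransGen (Rel S) u (f r) := by
  by_cases h8 : 8 ≤ u.val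
  · have hc := out_cert u.val u.isLt h8
    set Ts := fanOut.getD (u.val - 8) [] with hTs
    simp only [okOut, Bool.and_eq_true, decide_eq_true_eq, List.all_eq_true] at hc
    obtain ⟨⟨hlen, hnd⟩, hall⟩ := hc
    obtain ⟨T, hT, hTS⟩ := exists_avoid S hS Ts hlen hnd
      (fun T hT => walk_lt T u.val (hall T hT).1)
    obtain ⟨hw, hany⟩ := hall T hT
    rw [List.any_eq_true] at hany
    obtain ⟨r, hr, hr8⟩ := hany
    simp only [decide_eq_true_eq] at hr8
    exact ⟨r, hr8, hTS r hr, walk_sound S T u hu hw hTS r hr⟩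
  · exact ⟨u.val, by omega, not_mem_of S hu, by rw [f_fin]⟩

/-- Every vertex outside `S` is reached from a hub vertex outside `S`. -/
lemma from_hub (S : Finset (Fin 49)) (hS : S.card < 8) (v : Fin 49) (hv : v ∉ S) :
    ∃ r : ℕ, r < 8 ∧ f r ∉ S ∧ ReflTransGen (Rel S) (f r) v := by
  by_cases h8 : 8 ≤ v.val
  · have hc := in_cert v.val v.isLt h8
    set Ts := fanIn.getD (v.val - 8) [] with hTs
    simp only [okIn, Bool.and_eq_true, decide_eq_true_eq, List.all_eq_true] at hc
    obtain ⟨⟨hlen, hnd⟩, hall⟩ := hc
    have hlt : ∀ T ∈ Ts, ∀ a ∈ T, a < 49 := by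
      intro T hT a ha
      have h1 := hall T hT
      match T, ha, h1 with
      | r :: l, ha, h1 =>
        simp only [Bool.and_eq_true, decide_eq_true_eq] at h1
        rcases List.mem_cons.1 ha with rfl | ha
        · omega
        · exact walk_lt _ _ h1.2 a (List.mem_append_left _ ha)
    obtain ⟨T, hT, hTS⟩ := exists_avoid S hS Ts hlen hnd hlt
    have h1 := hall T hT
    match T, hTS, h1 with
    | r :: l, hTS, h1 =>
      simp only [Bool.and_eq_true, decide_eq_true_eq] at h1
      obtain ⟨hr8, hw⟩ := h1
      have hrS : f r ∉ S := hTS r (by simp)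
      refine ⟨r, hr8, hrS, ?_⟩
      have h2 := walk_sound S (l ++ [v.val]) (f r) hrS
        (by rw [f_val (by omega)]; exact hw)
        (by
          intro a ha
          rcases List.mem_append.1 ha with ha | ha
          · exact hTS a (by simp [ha])
          · rw [List.mem_singleton.1 ha]; exact not_mem_of S hv)
        v.val (by simp)
      rwa [f_fin] at h2
  · exact ⟨v.val, by omega, not_mem_of S hv, by rw [f_fin]⟩

/-- Surviving hub vertices reach each other. -/
lemma hub_hub (S : Finset (Fin 49)) (hS : S.card < 8) (r s : ℕ) (hr : r < 8) (hs : s < 8)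
    (hrS : f r ∉ S) (hsS : f s ∉ S) : ReflTransGen (Rel S) (f r) (f s) := by
  by_cases hrs : r = s
  · rw [hrs]
  · have hc := hub_cert r hr s hs hrs
    set Ts := hubPaths.getD (8 * r + s) [] with hTs
    simp only [okHub, Bool.and_eq_true, decide_eq_true_eq, List.all_eq_true] at hc
    obtain ⟨⟨hlen, hnd⟩, hall⟩ := hc
    obtain ⟨T, hT, hTS⟩ := exists_avoid S hS Ts hlen hnd
      (fun T hT a ha => walk_lt _ _ (hall T hT) a (List.mem_append_left _ ha))
    exact walk_sound S (T ++ [s]) (f r) hrS
      (by rw [f_val (by omega)]; exact hall T hT)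
      (by
        intro a ha
        rcases List.mem_append.1 ha with ha | ha
        · exact hTS a ha
        · rw [List.mem_singleton.1 ha]; exact hsS)
      s (by simp)

theorem connected (S : Finset (Fin 49)) (hS : S.card < 8) (u v : Fin 49) (hu : u ∉ S)
    (hv : v ∉ S) : ReflTransGen (fun a b => a ∉ S ∧ b ∉ S ∧ G.Adj a b) u v := by
  obtain ⟨r, hr, hrS, h1⟩ := to_hub S hS u hu
  obtain ⟨s, hs, hsS, h2⟩ := from_hub S hS v hv
  exact (h1.trans (hub_hub S hS r s hr hs hrS hsS)).trans h2

/-! ### Minimality -/

/-- Number of one bits below `49`. -/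
def pop (m : ℕ) : ℕ := ((List.range 49).filter (fun i => m.testBit i)).length

/-- The set of all vertices. -/
def full : ℕ := 2 ^ 49 - 1

/-- Masks of the leaves. -/
def leafI (x : ℕ) : ℕ := if x < 16 then (2 ^ 8 - 1) <<< 8 else (2 ^ 8 - 1) <<< 16
def leafJ (y : ℕ) : ℕ := if y < 41 then (2 ^ 8 - 1) <<< 33 else (2 ^ 8 - 1) <<< 41

/-- Union of the entries of `t` with index in the mask `m`. -/
def nbr (t : List ℕ) (m : ℕ) : ℕ :=
  (List.range 49).foldl (fun acc a => if m.testBit a then acc ||| t.getD a 0 else acc) 0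

/-- For an arc `(x, y)`: a set `F ∋ x` (mask) and a separator (mask) of size seven such that
`(x, y)` is the only arc from `F` to the outside of `F` and the separator. -/
def cert (x y : ℕ) : ℕ × ℕ :=
  if pop (outs.getD x 0) = 8 then (1 <<< x, outs.getD x 0 ^^^ (1 <<< y))
  else if pop (ins.getD y 0) = 8 then
    (full ^^^ (ins.getD y 0 ^^^ (1 <<< x)) ^^^ (1 <<< y), ins.getD y 0 ^^^ (1 <<< x))
  else if 8 ≤ x ∧ x < 24 then
    (leafI x, (nbr outs (leafI x) ||| leafI x) ^^^ leafI x ^^^ (1 <<< y))
  else
    (full ^^^ ((nbr ins (leafJ y) ||| leafJ y) ^^^ (1 <<< x)),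
      (nbr ins (leafJ y) ||| leafJ y) ^^^ leafJ y ^^^ (1 <<< x))

/-- Check of the certificate. -/
def okMin (x y : ℕ) : Bool :=
  let F := (cert x y).1
  let S := (cert x y).2
  F.testBit x && !F.testBit y && !S.testBit x && !S.testBit y && decide (pop S ≤ 7) &&
    (List.range 49).all (fun a => !F.testBit a ||
      (if a = x then (outs.getD a 0 ||| (F ||| S)) == ((F ||| S) ||| (1 <<< y))
        else (outs.getD a 0 ||| (F ||| S)) == (F ||| S)))

set_option maxRecDepth 100000 in
lemma min_cert : ∀ x < 49, ∀ y < 49, adjN x y = true → okMin x y = true := by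
  decide +kernel

/-- The vertex set with mask `m`. -/
def setOf (m : ℕ) : Finset (Fin 49) := Finset.univ.filter (fun a => m.testBit a.val = true)

lemma card_setOf (m : ℕ) : (setOf m).card = pop m := by
  have h1 : (setOf m).image Fin.val = (Finset.range 49).filter (fun i => m.testBit i = true) := by
    ext i
    simp only [setOf, Finset.mem_image, Finset.mem_filter, Finset.mem_univ, true_and,
      Finset.mem_range]
    constructor
    · rintro ⟨a, ha, rfl⟩
      exact ⟨a.isLt, ha⟩
    · rintro ⟨hi, hm⟩
      exact ⟨⟨i, hi⟩, hm, rfl⟩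
  rw [← Finset.card_image_of_injective (setOf m) Fin.val_injective, h1]
  have h2 : (Finset.range 49).filter (fun i => m.testBit i = true) =
      ((List.range 49).filter (fun i => m.testBit i)).toFinset := by
    ext i
    simp
  rw [h2, List.toFinset_card_of_nodup]
  · rfl
  · exact List.Nodup.filter _ List.nodup_range

theorem minimal (x y : Fin 49) (hxy : G.Adj x y) :
    ¬ (∀ S : Finset (Fin 49), S.card < 8 → ∀ u v : Fin 49, u ∉ S → v ∉ S →
      ReflTransGen (fun a b => a ∉ S ∧ b ∉ S ∧ G.Adj a b ∧ ¬ (a = x ∧ b = y)) u v) := by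
  intro hall
  have hc := min_cert x.val x.isLt y.val y.isLt hxy
  set F := (cert x.val y.val).1 with hF
  set M := (cert x.val y.val).2 with hM
  simp only [okMin, ← hF, ← hM, Bool.and_eq_true, Bool.not_eq_true', decide_eq_true_eq,
    List.all_eq_true, List.mem_range, Bool.or_eq_true] at hc
  obtain ⟨⟨⟨⟨⟨hFx, hFy⟩, hMx⟩, hMy⟩, hpop⟩, hclosed⟩ := hc
  have hxS : x ∉ setOf M := by simp [setOf, hMx]
  have hyS : y ∉ setOf M := by simp [setOf, hMy]
  have hreach := hall (setOf M) (by rw [card_setOf]; omega) x y hxS hyS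
  have hinv : F.testBit y.val = true := by
    have hinv' : ∀ b : Fin 49, ReflTransGen (fun a b => a ∉ setOf M ∧ b ∉ setOf M ∧ G.Adj a b ∧
        ¬ (a = x ∧ b = y)) x b → F.testBit b.val = true := by
      intro b hb
      induction hb with
      | refl => exact hFx
      | @tail a b _ hstep ha =>
      obtain ⟨haS, hbS, hab, hne⟩ := hstep
      have hbM : M.testBit b.val = false := by
        have := hbS
        simp only [setOf, Finset.mem_filter, Finset.mem_univ, true_and] at this
        simpa using this
      have hadj : (outs.getD a.val 0).testBit b.val = true := hab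
      have h1 := hclosed a.val a.isLt
      rcases h1 with h1 | h1
      · rw [ha] at h1; exact absurd h1 (by simp)
      · split_ifs at h1 with hax
        · have h2 := beq_iff_eq.1 h1
          have h3 : (F ||| M ||| 1 <<< y.val).testBit b.val = true := by
            rw [← h2, Nat.testBit_or, hadj, Bool.true_or]
          rw [Nat.testBit_or, Nat.testBit_or, hbM, Bool.or_false, Bool.or_eq_true] at h3
          rcases h3 with h3 | h3
          · exact h3
          · exfalso
            rw [Nat.one_shiftLeft, Nat.testBit_two_pow] at h3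
            simp only [decide_eq_true_eq] at h3
            exact hne ⟨Fin.ext hax, Fin.ext h3.symm⟩
        · have h2 := beq_iff_eq.1 h1
          have h3 : (F ||| M).testBit b.val = true := by
            rw [← h2, Nat.testBit_or, hadj, Bool.true_or]
          rw [Nat.testBit_or, hbM, Bool.or_false] at h3
          exact h3
    exact hinv' y hreach
  rw [hinv] at hFy
  exact absurd hFy (by simp)

/-! ### Degrees -/

set_option maxRecDepth 100000 in
lemma deg_cert : ∀ x : Fin 49, (Finset.univ.filter (fun z : Fin 49 => adjN x.val z.val = true)).card = 8 →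
    (Finset.univ.filter (fun z : Fin 49 => adjN z.val x.val = true)).card = 8 → x = 24 := by
  decide +kernel

lemma deg (x : Fin 49) (h1 : {z | G.Adj x z}.ncard = 8) (h2 : {z | G.Adj z x}.ncard = 8) :
    x = 24 := by
  apply deg_cert
  · rw [← h1, ← Set.ncard_coe_finset]
    congr 1
    ext z
    simp [G]
  · rw [← h2, ← Set.ncard_coe_finset]
    congr 1
    ext z
    simp [G]

set_option maxRecDepth 100000 in
lemma loopless : ∀ w < 49, adjN w w = false := by
  decide +kernel

end Pool.Agent.Mader49
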